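import Pool.Agent.Y51.ST.Count

set_option autoImplicit false

/-! There are continuum many pairwise nonisomorphic simple `T₀`-groups generated by three involutions. -/

namespace Pool.Agent.Results.MP_bd8d5e_al.ContinuumMany

open Pool.Agent.TH68

/-- There is a family of groups `G r`, indexed by the real numbers `r`, pairwise nonisomorphic, such
that each `G r` is simple, is generated by three involutions and is a `T₀`-group with respect to every
one of its involutions (and it has involutions). In addition every nontrivial element of finite order of
`G r` has prime order, and the centralizer of an element of odd prime order is the cyclic group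
generated by that element. -/
theorem result : ∃ (G : ℝ → Type) (_ : ∀ r, Group (G r)),
    (∀ r, IsSimpleGroup (G r) ∧
      (∃ i j k : G r, orderOf i = 2 ∧ orderOf j = 2 ∧ orderOf k = 2 ∧
        Subgroup.closure {i, j, k} = ⊤) ∧
      (∀ i : G r, orderOf i = 2 → IsT0 (G r) i) ∧
      (∀ x : G r, IsOfFinOrder x → x = 1 ∨ (orderOf x).Prime) ∧
      ∀ x : G r, (orderOf x).Prime → orderOf x ≠ 2 →
        Subgroup.centralizer {x} = Subgroup.zpowers x) ∧
    ∀ r s, Nonempty (G r ≃* G s) → r = s := Pool.Agent.Y51.ST.main

end Pool.Agent.Results.MP_bd8d5e_al.ContinuumMany
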